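import Pool.Agent.H85.AK.Stmt3
import Pool.Agent.H640.AKOrbit

/-! The statement `S_orb` of the project AK (helper85). -/

set_option autoImplicit false

namespace Pool.Agent.H236.AKOrb

open Finset

/-- the number of elements of `A` which leave `A` under the multiplication with `h` -/
noncomputable def los (A : Finset ℂ) (h : ℂ) : ℕ := (A.filter fun z => h * z ∉ A).card

theorem los_one (A : Finset ℂ) : los A 1 = 0 := by
  rw [los, Finset.card_eq_zero, Finset.filter_eq_empty_iff]
  intro z hz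
  rw [one_mul]
  exact fun h => h hz

theorem los_mul (A : Finset ℂ) (h h' : ℂ) (hh : h ≠ 0) : los A (h' * h) ≤ los A h' + los A h := by
  have h1 : (A.filter fun z => h' * h * z ∉ A) ⊆
      (A.filter fun z => h * z ∈ A ∧ h' * (h * z) ∉ A) ∪ (A.filter fun z => h * z ∉ A) := by
    intro z hz
    rw [mem_filter] at hz
    rw [mem_union, mem_filter, mem_filter]
    by_cases h2 : h * z ∈ A
    · left
      refine ⟨hz.1, h2, ?_⟩
      rw [← mul_assoc]
      exact hz.2
    · exact Or.inr ⟨hz.1, h2⟩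
  have h3 : (A.filter fun z => h * z ∈ A ∧ h' * (h * z) ∉ A).card ≤ los A h' := by
    rw [los]
    apply Finset.card_le_card_of_injOn (fun z => h * z)
    · intro z hz
      have hz' := (mem_filter.1 (mem_coe.1 hz)).2
      exact mem_coe.2 (mem_filter.2 hz')
    · intro x _ y _ hxy
      exact mul_left_cancel₀ hh hxy
  calc los A (h' * h) ≤ _ := card_le_card h1
    _ ≤ _ := card_union_le _ _
    _ ≤ los A h' + los A h := Nat.add_le_add_right h3 _

theorem los_pow (A : Finset ℂ) (h : ℂ) (hh : h ≠ 0) (n : ℕ) : los A (h ^ n) ≤ n * los A h := by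
  induction n with
  | zero => rw [pow_zero, los_one, zero_mul]
  | succ n ih =>
    rw [pow_succ]
    have h1 := los_mul A h (h ^ n) hh
    rw [add_mul, one_mul]
    exact h1.trans (Nat.add_le_add_right ih _)

theorem los_prod {k : ℕ} (A : Finset ℂ) (g : Fin k → ℂ) (hg : ∀ i, g i ≠ 0) (a : Fin k → ℕ)
    (s : Finset (Fin k)) : los A (∏ i ∈ s, g i ^ a i) ≤ ∑ i ∈ s, a i * los A (g i) := by
  classical
  induction s using Finset.induction_on with
  | empty => rw [prod_empty, sum_empty, los_one]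
  | insert j s hj ih =>
    rw [prod_insert hj, sum_insert hj]
    have h0 : (∏ i ∈ s, g i ^ a i) ≠ 0 := Finset.prod_ne_zero_iff.2 fun i _ => pow_ne_zero _ (hg i)
    have h1 := los_mul A (∏ i ∈ s, g i ^ a i) (g j ^ a j) h0
    have h2 := los_pow A (g j) (hg j) (a j)
    omega

theorem orb_eq {k : ℕ} (g : Fin k → ℂ) (S : Finset ℂ) (m : ℕ) (hm : 0 < m) (i : Fin k) :
    ∃ S' : Finset ℂ, Pool.Agent.H85.AK.Stmt3.orb g S m =
      (range m).biUnion fun l => S'.image fun z => g i ^ l * z := by
  classical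
  refine ⟨(Finset.univ.filter fun b : Fin k → Fin m => (b i : ℕ) = 0).biUnion fun b =>
    S.image fun z => (∏ j, g j ^ (b j : ℕ)) * z, ?_⟩
  have hP : ∀ b : Fin k → Fin m, ∏ j, g j ^ (b j : ℕ) =
      g i ^ (b i : ℕ) * ∏ j ∈ univ.erase i, g j ^ (b j : ℕ) := fun b =>
    (Finset.mul_prod_erase univ (fun j => g j ^ (b j : ℕ)) (mem_univ i)).symm
  have hE : ∀ (b : Fin k → Fin m) (c : Fin m), ∏ j ∈ univ.erase i,
      g j ^ ((Function.update b i c j : Fin m) : ℕ) = ∏ j ∈ univ.erase i, g j ^ (b j : ℕ) := by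
    intro b c
    apply Finset.prod_congr rfl
    intro j hj
    rw [Function.update_of_ne (Finset.ne_of_mem_erase hj)]
  ext w
  simp only [Pool.Agent.H85.AK.Stmt3.orb, mem_biUnion, mem_range, mem_image, mem_filter, mem_univ,
    true_and]
  constructor
  · rintro ⟨b, z, hz, rfl⟩
    refine ⟨(b i : ℕ), (b i).2, (∏ j ∈ univ.erase i, g j ^ (b j : ℕ)) * z,
      ⟨Function.update b i ⟨0, hm⟩, ?_, z, hz, ?_⟩, ?_⟩
    · rw [Function.update_self]
    · rw [hP, hE, Function.update_self]
      simp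
    · rw [hP b, mul_assoc]
  · rintro ⟨l, hl, y, ⟨b, hb, z, hz, rfl⟩, rfl⟩
    refine ⟨Function.update b i ⟨l, hl⟩, z, hz, ?_⟩
    rw [hP, hE, Function.update_self, hP b, hb, pow_zero, one_mul, mul_assoc]

theorem los_orb {k : ℕ} (g : Fin k → ℂ) (S : Finset ℂ) (m : ℕ) (hm : 0 < m) (hg : ∀ i, g i ≠ 0)
    (i : Fin k) : m * los (Pool.Agent.H85.AK.Stmt3.orb g S m) (g i) ≤
      (Pool.Agent.H85.AK.Stmt3.orb g S m).card := by
  classical
  obtain ⟨S', hS⟩ := orb_eq g S m hm i
  have h := Pool.Agent.H640.AK.s_orbit (g i) S' m (hg i) hm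
  rw [← hS] at h
  set A := Pool.Agent.H85.AK.Stmt3.orb g S m with hA
  have h1 : los A (g i) ≤ ((A.image fun z => g i * z) \ A).card := by
    rw [los]
    apply Finset.card_le_card_of_injOn (fun z => g i * z)
    · intro z hz
      have hz' := mem_filter.1 (mem_coe.1 hz)
      exact mem_coe.2 (mem_sdiff.2 ⟨mem_image_of_mem _ hz'.1, hz'.2⟩)
    · intro x _ y _ hxy
      exact mul_left_cancel₀ (hg i) hxy
  have h2 : (A ∪ A.image fun z => g i * z).card =
      A.card + ((A.image fun z => g i * z) \ A).card := by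
    rw [← card_union_of_disjoint disjoint_sdiff, union_sdiff_self_eq_union]
  rw [h2] at h
  have h3 := Nat.mul_le_mul_left m h1
  have h4 : m * (A.card + ((A.image fun z => g i * z) \ A).card) =
      m * A.card + m * ((A.image fun z => g i * z) \ A).card := by ring
  have h5 : (m + 1) * A.card = m * A.card + A.card := by ring
  rw [h4, h5] at h
  omega

/-- **Unions of dilates over a box are almost invariant.** -/
theorem s_orb : Pool.Agent.H85.AK.Stmt3.S_orb := by
  intro k g S m hg hm a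
  have h1 := los_prod (Pool.Agent.H85.AK.Stmt3.orb g S m) g hg a Finset.univ
  change m * los (Pool.Agent.H85.AK.Stmt3.orb g S m) (∏ i, g i ^ a i) ≤ _
  calc m * los (Pool.Agent.H85.AK.Stmt3.orb g S m) (∏ i, g i ^ a i)
      ≤ m * ∑ i, a i * los (Pool.Agent.H85.AK.Stmt3.orb g S m) (g i) := Nat.mul_le_mul_left _ h1
    _ = ∑ i, a i * (m * los (Pool.Agent.H85.AK.Stmt3.orb g S m) (g i)) := by
        rw [Finset.mul_sum]
        apply Finset.sum_congr rfl
        intro i _
        ring
    _ ≤ ∑ i, a i * (Pool.Agent.H85.AK.Stmt3.orb g S m).card := by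
        apply Finset.sum_le_sum
        intro i _
        exact Nat.mul_le_mul_left _ (los_orb g S m hm hg i)
    _ = (∑ i, a i) * (Pool.Agent.H85.AK.Stmt3.orb g S m).card := by
        rw [Finset.sum_mul]

end Pool.Agent.H236.AKOrb
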