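import Mathlib
import Pool.Agent.H85.AK.Stmt2

/-!
# Archimedean places for a group of algebraic units (task `S_unit` of helper85)
-/

set_option autoImplicit false

open Pool.Agent.H85.AK.Stmt2

namespace Pool.Agent.H236.AK

theorem s_unit (h : S_lin) : S_unit := by
  intro F _ _ M _ _ _ g g0 gadd ginj gint
  have gne : ∀ m, g m ≠ 0 := fun m h0 => by
    have h1 := gadd m (-m)
    rw [add_neg_cancel, g0, h0, zero_mul] at h1
    exact one_ne_zero h1
  let b := Module.Free.chooseBasis ℤ M
  let S : Set F := Set.range (fun j => g (b j))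
  let k : IntermediateField ℚ F := IntermediateField.adjoin ℚ S
  have hfin : FiniteDimensional ℚ k := by
    have : Finite S := Set.finite_range _
    refine IntermediateField.finiteDimensional_adjoin (fun y hy => ?_)
    obtain ⟨j, rfl⟩ := hy
    exact (gint (b j)).tower_top
  have hmem : ∀ m, g m ∈ k := by
    let A : AddSubgroup M :=
      { carrier := {m | g m ∈ k}
        add_mem' := fun {m n} hm hn => by
          show g (m + n) ∈ k
          rw [gadd]
          exact mul_mem hm hn
        zero_mem' := by
          show g 0 ∈ k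
          rw [g0]
          exact one_mem k
        neg_mem' := fun {m} hm => by
          show g (-m) ∈ k
          have h1 : g (-m) = (g m)⁻¹ := by
            have h2 := gadd m (-m)
            rw [add_neg_cancel, g0] at h2
            exact eq_inv_of_mul_eq_one_right h2.symm
          rw [h1]
          exact inv_mem hm }
    intro m
    have h1 : m ∈ Submodule.span ℤ (Set.range b) := by
      rw [b.span_eq]
      exact Submodule.mem_top
    have h2 : Submodule.span ℤ (Set.range b) ≤ AddSubgroup.toIntSubmodule A := by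
      rw [Submodule.span_le]
      rintro _ ⟨j, rfl⟩
      show g (b j) ∈ k
      exact IntermediateField.subset_adjoin ℚ S ⟨j, rfl⟩
    exact h2 h1
  have hnf : NumberField k := { to_charZero := inferInstance, to_finiteDimensional := hfin }
  let x : M → k := fun m => ⟨g m, hmem m⟩
  have hx : ∀ m, algebraMap k F (x m) = g m := fun m => rfl
  have xadd : ∀ m n, x (m + n) = x m * x n := fun m n => Subtype.ext (gadd m n)
  have xne : ∀ m, x m ≠ 0 := fun m h0 => gne m (congrArg Subtype.val h0)
  have xinj : Function.Injective x := fun m n hmn => ginj (congrArg Subtype.val hmn)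
  have xint : ∀ m, IsIntegral ℤ (x m) := fun m => by
    have h1 : IsIntegral ℤ (algebraMap k F (x m)) := gint m
    exact (isIntegral_algebraMap_iff (algebraMap k F).injective).mp h1
  let Λ : (k →+* ℂ) → (M →+ ℝ) := fun σ =>
    { toFun := fun m => Real.log ‖σ (x m)‖
      map_zero' := by
        have h1 : x 0 = 1 := Subtype.ext g0
        rw [h1, map_one, norm_one, Real.log_one]
      map_add' := fun m n => by
        rw [xadd, map_mul, norm_mul, Real.log_mul]
        · exact norm_ne_zero_iff.mpr ((map_ne_zero σ).mpr (xne m))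
        · exact norm_ne_zero_iff.mpr ((map_ne_zero σ).mpr (xne n)) }
  have hpos : ∀ (σ : k →+* ℂ) (m : M), 0 < ‖σ (x m)‖ := fun σ m =>
    norm_pos_iff.mpr ((map_ne_zero σ).mpr (xne m))
  have hΛ : ∀ T : ℝ, {m : M | ∀ σ, |Λ σ m| ≤ T}.Finite := by
    intro T
    have h1 := NumberField.Embeddings.finite_of_norm_le k ℂ (Real.exp T)
    refine Set.Finite.of_injOn (f := x) (t := {y : k | IsIntegral ℤ y ∧
      ∀ φ : k →+* ℂ, ‖φ y‖ ≤ Real.exp T}) ?_ xinj.injOn h1
    intro m hm
    refine ⟨xint m, fun φ => ?_⟩
    have h2 : |Real.log ‖φ (x m)‖| ≤ T := hm φ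
    rw [← Real.log_le_iff_le_exp (hpos φ m)]
    exact (le_abs_self _).trans h2
  obtain ⟨e, he⟩ := h M (k →+* ℂ) Λ hΛ
  refine ⟨k, inferInstance, inferInstance, x, e, hx, (he (Real.log 3)).subset ?_⟩
  intro m hm j
  obtain ⟨h1, h2⟩ := hm j
  show |Real.log ‖e j (x m)‖| ≤ Real.log 3
  rw [abs_le]
  constructor
  · have h3 : Real.log (1 / 3) ≤ Real.log ‖e j (x m)‖ := Real.log_le_log (by norm_num) h1.le
    rwa [one_div, Real.log_inv] at h3
  · exact Real.log_le_log (hpos _ _) h2.le

end Pool.Agent.H236.AK
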