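import Pool.Agent.H979.FR.Stm

set_option autoImplicit false

open MeasureTheory ProbabilityTheory Finset
open scoped ENNReal NNReal

namespace Pool.Agent.H236

open Pool.Agent.H979.FR

theorem pois_sum (r a : ℝ) :
    HasSum (fun n : ℕ => Real.exp (-r) * r ^ n / (n.factorial : ℝ) * a ^ n)
      (Real.exp (r * (a - 1))) := by
  have h := (NormedSpace.expSeries_div_hasSum_exp (r * a)).mul_left (Real.exp (-r))
  rw [← Real.exp_eq_exp_ℝ] at h
  have e1 : Real.exp (-r) * Real.exp (r * a) = Real.exp (r * (a - 1)) := by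
    rw [← Real.exp_add]
    congr 1
    ring
  rw [e1] at h
  have e2 : (fun n : ℕ => Real.exp (-r) * r ^ n / (n.factorial : ℝ) * a ^ n) =
      fun n : ℕ => Real.exp (-r) * ((r * a) ^ n / (n.factorial : ℝ)) := by
    funext n
    rw [mul_pow]
    ring
  rw [e2]
  exact h

theorem pois_lint (lam : ℝ≥0) (a : ℝ) (ha : 0 ≤ a) :
    ∫⁻ n, ENNReal.ofReal a ^ n ∂(poissonMeasure lam) =
      ENNReal.ofReal (Real.exp ((lam : ℝ) * (a - 1))) := by
  rw [MeasureTheory.lintegral_countable']
  have h1 : ∀ n : ℕ, ENNReal.ofReal a ^ n * poissonMeasure lam {n} =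
      ENNReal.ofReal (Real.exp (-(lam : ℝ)) * (lam : ℝ) ^ n / (n.factorial : ℝ) * a ^ n) := by
    intro n
    rw [poissonMeasure_singleton, ← ENNReal.ofReal_pow ha, ← ENNReal.ofReal_mul (by positivity),
      mul_comm]
  simp only [h1]
  have h2 := pois_sum (lam : ℝ) a
  rw [← ENNReal.ofReal_tsum_of_nonneg (fun n => by positivity) h2.summable, h2.tsum_eq]

section one

variable {V : Type} [MeasurableSpace V] [DiscreteMeasurableSpace V]

/-- no particle of the vertex is in `H` -/
def non (H : Set (Pool.Agent.H979.FR.Part V)) : Set (ℕ × (ℕ → Pool.Agent.H979.FR.Part V)) := {p | ∀ i < p.1, p.2 i ∉ H}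

omit [DiscreteMeasurableSpace V] in
theorem non_meas (H : Set (Pool.Agent.H979.FR.Part V)) (hH : MeasurableSet H) : MeasurableSet (non H) := by
  have e : non H = ⋂ i : ℕ, (({p : ℕ × (ℕ → Pool.Agent.H979.FR.Part V) | p.1 ∈ Set.Iic i}) ∪
      {p : ℕ × (ℕ → Pool.Agent.H979.FR.Part V) | p.2 i ∈ Hᶜ}) := by
    ext p
    simp only [non, Set.mem_ofPred_eq, Set.mem_iInter, Set.mem_union, Set.mem_Iic, Set.mem_compl_iff]
    constructor
    · intro h i
      rcases lt_or_ge i p.1 with hi | hi
      · exact Or.inr (h i hi)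
      · exact Or.inl hi
    · intro h i hi
      rcases h i with h1 | h1
      · omega
      · exact h1
  rw [e]
  refine MeasurableSet.iInter fun i => MeasurableSet.union ?_ ?_
  · exact measurable_fst (MeasurableSet.of_discrete (s := Set.Iic i))
  · exact ((measurable_pi_apply i).comp measurable_snd) hH.compl

theorem non_law (G : SimpleGraph V) [G.LocallyFinite] (lam : ℝ≥0) (H : Set (Pool.Agent.H979.FR.Part V))
    (hH : MeasurableSet H) :
    ((poissonMeasure lam).prod (Measure.infinitePi fun _ : ℕ => partLaw G)) (non H) =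
      ENNReal.ofReal (Real.exp (-((lam : ℝ) * (partLaw G H).toReal))) := by
  rw [Measure.prod_apply (non_meas H hH)]
  have hle : (partLaw G H).toReal ≤ 1 := by
    have h := prob_le_one (μ := partLaw G) (s := H)
    exact ENNReal.toReal_le_of_le_ofReal zero_le_one (by simpa using h)
  have hc : partLaw G Hᶜ = ENNReal.ofReal (1 - (partLaw G H).toReal) := by
    rw [prob_compl_eq_one_sub hH, ENNReal.ofReal_sub _ ENNReal.toReal_nonneg,
      ENNReal.ofReal_toReal (measure_ne_top _ _), ENNReal.ofReal_one]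
  have h1 : ∀ n : ℕ, (Measure.infinitePi fun _ : ℕ => partLaw G) (Prod.mk n ⁻¹' non H) =
      ENNReal.ofReal (1 - (partLaw G H).toReal) ^ n := by
    intro n
    have e : Prod.mk n ⁻¹' non H = Set.pi (↑(Finset.range n) : Set ℕ) (fun _ => Hᶜ) := by
      ext c
      simp [non, Set.mem_pi]
    rw [e, Measure.infinitePi_pi _ (fun _ _ => hH.compl), Finset.prod_const, Finset.card_range, hc]
  simp only [h1]
  rw [pois_lint lam _ (by linarith)]
  congr 2
  ring

end one

theorem fr_poi : S_POI := by
  intro V _ _ _ G _ lam s H hH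
  have e : {ω : Conf V | ∀ x ∈ s, ∀ i < (ω x).1, (ω x).2 i ∉ H x} =
      Set.pi (↑s : Set V) (fun x => non (H x)) := by
    ext ω
    simp [non, Set.mem_pi]
  rw [e, law, Measure.infinitePi_pi _ (fun x _ => non_meas (H x) (hH x))]
  simp only [non_law G lam _ (hH _)]
  rw [← ENNReal.ofReal_prod_of_nonneg (fun x _ => (Real.exp_pos _).le), ← Real.exp_sum,
    Finset.sum_neg_distrib]

end Pool.Agent.H236
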