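import Pool.Agent.H283.HT.Stm

set_option autoImplicit false

namespace Pool.Agent.H236.HTSH

open Pool.Agent.H283.HT
open Filter Topology

theorem R_R (x : P3) : R (R x) = x := by
  ext <;> simp [R]

theorem R_cont : Continuous R := by
  unfold R
  fun_prop

theorem R_interior (K : Set P3) (hs : ∀ x ∈ K, R x ∈ K) (x : P3) (hx : x ∈ interior K) :
    R x ∈ interior K := by
  rw [mem_interior] at hx ⊢
  obtain ⟨t, ht, hto, hxt⟩ := hx
  refine ⟨R ⁻¹' t, ?_, hto.preimage R_cont, ?_⟩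
  · intro y hy
    have h := hs _ (ht hy)
    rwa [R_R] at h
  · change R (R x) ∈ t
    rwa [R_R]

theorem SH_done : S_SH := by
  intro K hK
  have hopen : IsOpen (Prod.fst '' interior K) := isOpenMap_fst _ isOpen_interior
  have hsub : Prod.fst '' interior K ⊆ interior (Sh K) :=
    interior_maximal (Set.image_mono interior_subset) hopen
  refine ⟨⟨?_, ?_, ?_, ?_⟩, ?_⟩
  · exact hK.conv.linear_image (LinearMap.fst ℝ P2 ℝ)
  · exact hK.comp.image continuous_fst
  · rintro p ⟨x, hx, rfl⟩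
    exact ⟨R x, hK.sym x hx, rfl⟩
  · obtain ⟨x, hx⟩ := hK.inner
    apply hsub
    refine ⟨(1 / 2 : ℝ) • x + (1 / 2 : ℝ) • R x, ?_, ?_⟩
    · exact hK.conv.interior hx (R_interior K hK.sym x hx) (by norm_num) (by norm_num)
        (by norm_num)
    · ext <;> simp [R]
  · intro p hp
    obtain ⟨x₀, hx₀⟩ := hK.inner
    have hc : Continuous (fun ε : ℝ => p + ε • (p - x₀.1)) := by fun_prop
    have h0 : (fun ε : ℝ => p + ε • (p - x₀.1)) 0 ∈ interior (Sh K) := by
      simpa using hp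
    have hev : ∀ᶠ ε in 𝓝 (0 : ℝ), p + ε • (p - x₀.1) ∈ interior (Sh K) :=
      hc.continuousAt.eventually_mem (isOpen_interior.mem_nhds h0)
    have hev2 : ∀ᶠ ε in 𝓝[>] (0 : ℝ), p + ε • (p - x₀.1) ∈ interior (Sh K) ∧ 0 < ε :=
      (hev.filter_mono nhdsWithin_le_nhds).and self_mem_nhdsWithin
    obtain ⟨ε, hε, hε0⟩ := hev2.exists
    obtain ⟨y, hy, hyp⟩ := interior_subset hε
    have h1 : (0 : ℝ) < 1 + ε := by linarith
    have hmem : (ε / (1 + ε)) • x₀ + (1 / (1 + ε)) • y ∈ interior K :=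
      hK.conv.combo_interior_self_mem_interior hx₀ hy (by positivity) (by positivity)
        (by field_simp; ring)
    refine ⟨((ε / (1 + ε)) • x₀ + (1 / (1 + ε)) • y).2, ?_⟩
    have he : ((p, ((ε / (1 + ε)) • x₀ + (1 / (1 + ε)) • y).2) : P3)
        = (ε / (1 + ε)) • x₀ + (1 / (1 + ε)) • y := by
      refine Prod.ext ?_ rfl
      change p = (ε / (1 + ε)) • x₀.1 + (1 / (1 + ε)) • y.1
      rw [hyp]
      ext
      · simp only [Prod.fst_add, Prod.smul_fst, Prod.fst_sub, smul_eq_mul]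
        field_simp
        ring
      · simp only [Prod.snd_add, Prod.smul_snd, Prod.snd_sub, smul_eq_mul]
        field_simp
        ring
    rw [he]
    exact hmem

end Pool.Agent.H236.HTSH
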