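import Mathlib
import Pool.Agent.H576.RD.Stm

/-!
# Regularity radius: finiteness of clusters, T0, minimal distance, finiteness of stabilisers
-/

set_option autoImplicit false

open Pool.Agent.H576.RD Filter Topology

namespace Pool.Agent.H236

theorem rd_fink : S_FINK := by
  intro r X x ρ hX
  have hr := hX.rpos
  have htb : TotallyBounded (Metric.closedBall (0 : E) ρ) :=
    (isCompact_closedBall (0 : E) ρ).totallyBounded
  obtain ⟨t, htf, ht⟩ := Metric.totallyBounded_iff.mp htb (r / 2) (by linarith)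
  have hch : ∀ v ∈ {v : E | ‖v‖ ≤ ρ ∧ x + v ∈ X}, ∃ y ∈ t, dist v y < r / 2 := by
    intro v hv
    have h1 : v ∈ Metric.closedBall (0 : E) ρ := by simpa using hv.1
    have h2 := ht h1
    simp only [Set.mem_iUnion, Metric.mem_ball] at h2
    obtain ⟨y, hy, hvy⟩ := h2
    exact ⟨y, hy, hvy⟩
  choose! f hf1 hf2 using hch
  refine Set.Finite.of_injOn (f := f) (fun v hv => hf1 v hv) ?_ htf
  intro v hv w hw hvw
  by_contra hne
  have h1 := hf2 v hv
  have h2 := hf2 w hw
  rw [hvw] at h1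
  have h3 : dist v w < r := by
    calc dist v w ≤ dist v (f w) + dist w (f w) := dist_triangle_right _ _ _
      _ < r := by linarith
  have h4 := hX.sep (x + w) hw.2 (x + v) hv.2 (fun he => hne (add_left_cancel he).symm)
  rw [add_sub_add_left_eq_sub, ← dist_eq_norm] at h4
  linarith

theorem rd_t0 : S_T0 := by
  intro r X hX x hx e he
  set t : ℕ → ℝ := fun n => 1 + 1 / ((n : ℝ) + 1) with ht
  have htpos : ∀ n, 1 < t n := fun n => by
    have : (0 : ℝ) < 1 / ((n : ℝ) + 1) := by positivity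
    simp only [ht]; linarith
  have htle : ∀ n, t n ≤ 2 := fun n => by
    have : 1 / ((n : ℝ) + 1) ≤ 1 := by
      rw [div_le_one (by positivity)]
      have : (0 : ℝ) ≤ n := n.cast_nonneg
      linarith
    simp only [ht]; linarith
  have hlim : Tendsto t atTop (𝓝 1) := by
    have := (tendsto_one_div_add_atTop_nhds_zero_nat (𝕜 := ℝ)).const_add 1
    rw [add_zero] at this
    exact this
  choose y hy hyd using fun n : ℕ => hX.cov (x + t n • e)
  have hvd : ∀ n, ‖(y n - x) - t n • e‖ ≤ 1 := fun n => by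
    have := hyd n
    rwa [← sub_sub] at this
  have hte : ∀ n, ‖t n • e‖ = t n := fun n => by
    rw [norm_smul, he, mul_one, Real.norm_of_nonneg (by linarith [htpos n])]
  have hne : ∀ n, y n - x ≠ 0 := fun n h0 => by
    have := hvd n
    rw [h0, zero_sub, norm_neg, hte] at this
    linarith [htpos n]
  have h3 : ∀ n, ‖y n - x‖ ≤ 3 := fun n => by
    have h1 : ‖y n - x‖ ≤ ‖(y n - x) - t n • e‖ + ‖t n • e‖ := by
      have := norm_add_le ((y n - x) - t n • e) (t n • e)
      rwa [sub_add_cancel] at this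
    have h2 := hvd n
    rw [hte] at h1
    linarith [htle n]
  have hineq : ∀ n, ‖y n - x‖ ^ 2 ≤ 2 * t n * inner ℝ (y n - x) e := fun n => by
    have h1 := hvd n
    have h2 : ‖(y n - x) - t n • e‖ ^ 2 ≤ 1 := by
      have := norm_nonneg ((y n - x) - t n • e)
      nlinarith
    rw [norm_sub_sq_real, hte, inner_smul_right] at h2
    nlinarith [htpos n]
  set K : Set E := {v : E | ‖v‖ ≤ 3 ∧ x + v ∈ X} \ {0} with hK
  have hKf : K.Finite := (rd_fink r X x 3 hX).subset Set.sdiff_subset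
  have hmem : ∀ n, y n - x ∈ K := fun n => ⟨⟨h3 n, by simpa using hy n⟩, by simpa using hne n⟩
  obtain ⟨a, ha, φ, hφ, hφl⟩ := hKf.isCompact.tendsto_subseq hmem
  have hfin : ‖a‖ ^ 2 ≤ 2 * 1 * inner ℝ a e := by
    have hL : Tendsto (fun n => ‖((fun n => y n - x) ∘ φ) n‖ ^ 2) atTop (𝓝 (‖a‖ ^ 2)) :=
      (hφl.norm).pow 2
    have hR : Tendsto (fun n => 2 * t (φ n) * inner ℝ (((fun n => y n - x) ∘ φ) n) e) atTop
        (𝓝 (2 * 1 * inner ℝ a e)) :=
      ((hlim.comp hφ.tendsto_atTop).const_mul 2).mul (hφl.inner tendsto_const_nhds)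
    exact le_of_tendsto_of_tendsto' hL hR (fun n => hineq (φ n))
  have ha0 : a ≠ 0 := by
    have := ha.2
    simpa using this
  refine ⟨a, ha0, ?_, ha.1.2, by linarith⟩
  have hcs : inner ℝ a e ≤ ‖a‖ * ‖e‖ := real_inner_le_norm a e
  rw [he, mul_one] at hcs
  have hpos : 0 < ‖a‖ := norm_pos_iff.mpr ha0
  nlinarith

theorem rd_min : S_MIN := by
  intro r X hX hN
  obtain ⟨x₀, hx₀, _⟩ := hX.cov 0
  set K : Set E := {v : E | ‖v‖ ≤ 2 ∧ x₀ + v ∈ X} \ {0} with hK
  have hKf : K.Finite := (rd_fink r X x₀ 2 hX).subset Set.sdiff_subset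
  have hKne : K.Nonempty := by
    obtain ⟨v, hv0, hv2, hvX, _⟩ := rd_t0 r X hX x₀ hx₀ e2 (by simp [e2])
    exact ⟨v, ⟨hv2, hvX⟩, by simpa using hv0⟩
  obtain ⟨v₀, hv₀, hmin⟩ := Set.exists_min_image K (fun v => ‖v‖) hKf hKne
  have hv00 : v₀ ≠ 0 := by simpa using hv₀.2
  refine ⟨‖v₀‖, hv₀.1.1, ⟨norm_pos_iff.mpr hv00, ?_, ?_⟩⟩
  · intro x hx y hy hxy
    by_cases h2 : ‖y - x‖ ≤ 2
    · obtain ⟨g, hg⟩ := hN x hx x₀ hx₀
      have h3 : x₀ + g (y - x) ∈ X := (hg (y - x) h2).mp (by simpa using hy)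
      have h4 : g (y - x) ∈ K := by
        refine ⟨⟨by rwa [LinearIsometryEquiv.norm_map], h3⟩, ?_⟩
        simp only [Set.mem_singleton_iff, EmbeddingLike.map_eq_zero_iff]
        exact sub_ne_zero.mpr (Ne.symm hxy)
      have h5 := hmin _ h4
      rwa [LinearIsometryEquiv.norm_map] at h5
    · exact hv₀.1.1.trans (le_of_lt (not_le.mp h2))
  · intro x hx
    obtain ⟨g, hg⟩ := hN x₀ hx₀ x hx
    refine ⟨x + g v₀, (hg v₀ hv₀.1.1).mp hv₀.1.2, ?_⟩
    rw [add_sub_cancel_left, LinearIsometryEquiv.norm_map]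

/-- The linear isometries which fix two linearly independent vectors form a finite set. -/
theorem fix_finite (v w : E) (h : LinearIndependent ℝ ![v, w]) :
    {g : LI | g v = v ∧ g w = w}.Finite := by
  set S : Submodule ℝ E := Submodule.span ℝ (Set.range ![v, w]) with hS
  have hf : Module.finrank ℝ S = 2 := by
    rw [hS, finrank_span_eq_card h]; simp
  have hf2 : Module.finrank ℝ Sᗮ = 1 := by
    have h1 := S.finrank_add_finrank_orthogonal
    have h2 : Module.finrank ℝ E = 3 := by simp [E]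
    omega
  obtain ⟨⟨n, hn⟩, hn0, hn1⟩ := finrank_eq_one_iff'.mp hf2
  have hn0' : n ≠ 0 := fun h => hn0 (by ext1; exact h)
  have hvS : v ∈ S := Submodule.subset_span ⟨0, rfl⟩
  have hwS : w ∈ S := Submodule.subset_span ⟨1, rfl⟩
  -- on `S` every such `g` is the identity
  have hid : ∀ g : LI, g v = v → g w = w → ∀ u ∈ S, g u = u := by
    intro g hgv hgw u hu
    refine Submodule.span_induction (p := fun u _ => g u = u) ?_ (by simp) ?_ ?_ hu
    · rintro _ ⟨i, rfl⟩
      fin_cases i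
      · exact hgv
      · exact hgw
    · intro a b _ _ ha hb
      rw [map_add, ha, hb]
    · intro c a _ ha
      rw [map_smul, ha]
  -- the image of `n`
  have himg : ∀ g : LI, g v = v → g w = w → g n = n ∨ g n = -n := by
    intro g hgv hgw
    have h1 : g n ∈ Sᗮ := by
      rw [Submodule.mem_orthogonal]
      intro u hu
      rw [← hid g hgv hgw u hu, LinearIsometryEquiv.inner_map_map]
      exact (Submodule.mem_orthogonal S n).mp hn u hu
    obtain ⟨c, hc⟩ := hn1 ⟨g n, h1⟩
    have hc' : c • n = g n := congrArg Subtype.val hc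
    have h2 : ‖c • n‖ = ‖n‖ := by rw [hc', LinearIsometryEquiv.norm_map]
    rw [norm_smul] at h2
    have h3 : ‖c‖ = 1 := by
      have : 0 < ‖n‖ := norm_pos_iff.mpr hn0'
      have h4 : ‖c‖ * ‖n‖ = 1 * ‖n‖ := by rw [h2, one_mul]
      exact mul_right_cancel₀ this.ne' h4
    rw [Real.norm_eq_abs] at h3
    rcases eq_or_eq_neg_of_abs_eq h3 with h4 | h4
    · left; rw [← hc', h4, one_smul]
    · right; rw [← hc', h4, neg_smul, one_smul]
  refine Set.Finite.of_injOn (f := fun g : LI => g n) (t := {n, -n}) ?_ ?_ (Set.toFinite _)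
  · intro g hg
    rcases himg g hg.1 hg.2 with h1 | h1
    · left; exact h1
    · right; exact h1
  · intro g hg k hk hgk
    apply LinearIsometryEquiv.ext
    intro u
    obtain ⟨a, ha, b, hb, hab⟩ := S.exists_add_mem_mem_orthogonal u
    obtain ⟨c, hc⟩ := hn1 ⟨b, hb⟩
    have hc' : c • n = b := congrArg Subtype.val hc
    rw [hab, ← hc', map_add, map_add, map_smul, map_smul, hid g hg.1 hg.2 a ha,
      hid k hk.1 hk.2 a ha]
    have : g n = k n := hgk
    rw [this]

theorem rd_fin : S_FIN := by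
  intro r X x ρ v w hX hv hw hvX hwX hlin
  have hK := rd_fink r X x ρ hX
  have hFab : ∀ a b : E, {g : LI | g v = a ∧ g w = b}.Finite := by
    intro a b
    rcases Set.eq_empty_or_nonempty {g : LI | g v = a ∧ g w = b} with h0 | ⟨g₀, hg₀⟩
    · rw [h0]; exact Set.finite_empty
    · refine ((fix_finite v w hlin).image (fun k => g₀ * k)).subset ?_
      intro g hg
      refine ⟨g₀⁻¹ * g, ⟨?_, ?_⟩, by simp⟩
      · show g₀.symm (g v) = v
        rw [hg.1, ← hg₀.1, LinearIsometryEquiv.symm_apply_apply]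
      · show g₀.symm (g w) = w
        rw [hg.2, ← hg₀.2, LinearIsometryEquiv.symm_apply_apply]
  have hfin : ((Aut X x ρ : Subgroup LI) : Set LI).Finite := by
    refine (hK.biUnion (fun a _ => hK.biUnion (fun b _ => hFab a b))).subset ?_
    intro g hg
    have hg' : Eqv X x x ρ g := hg
    simp only [Set.mem_iUnion]
    refine ⟨g v, ⟨by rwa [LinearIsometryEquiv.norm_map], (hg' v hv).mp hvX⟩, g w,
      ⟨by rwa [LinearIsometryEquiv.norm_map], (hg' w hw).mp hwX⟩, rfl, rfl⟩
  exact hfin.to_subtype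

end Pool.Agent.H236
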