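import Mathlib
import Pool.Agent.H576.RD.Stm

/-!
# Regularity radius: a finite group of rotations about `p` contains the rotation by `2 pi / |C|`
-/

set_option autoImplicit false

open Pool.Agent.H576.RD Filter Topology

namespace Pool.Agent.H236

namespace CYC

/-- The standard basis vectors. -/
noncomputable def b (i : Fin 3) : E := EuclideanSpace.single i (1 : ℝ)

theorem b_apply (i j : Fin 3) : b i j = if j = i then 1 else 0 := by
  simp [b]

theorem sum_b (v : E) : v = v 0 • b 0 + v 1 • b 1 + v 2 • b 2 := by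
  ext i
  fin_cases i <;> simp [b_apply]

theorem inner_E (v w : E) : inner ℝ v w = v 0 * w 0 + v 1 * w 1 + v 2 * w 2 := by
  rw [PiLp.inner_apply]
  simp [Fin.sum_univ_three, mul_comm]

theorem dt_mul (g h : LI) : dt (g * h) = dt g * dt h := by
  unfold dt
  rw [← LinearMap.det_comp]
  rfl

theorem dt_one : dt (1 : LI) = 1 := by
  unfold dt
  have : ((1 : LI).toLinearEquiv : E →ₗ[ℝ] E) = LinearMap.id := rfl
  rw [this, LinearMap.det_id]

theorem dt_conj (β g : LI) : dt (β⁻¹ * g * β) = dt g := by
  rw [dt_mul, dt_mul]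
  have : dt β⁻¹ * dt β = 1 := by rw [← dt_mul, inv_mul_cancel, dt_one]
  calc dt β⁻¹ * dt g * dt β = dt g * (dt β⁻¹ * dt β) := by ring
    _ = dt g := by rw [this, mul_one]

theorem dt_eq (k : LI) : dt k =
    k (b 0) 0 * k (b 1) 1 * k (b 2) 2 - k (b 0) 0 * k (b 2) 1 * k (b 1) 2
    - k (b 1) 0 * k (b 0) 1 * k (b 2) 2 + k (b 1) 0 * k (b 2) 1 * k (b 0) 2
    + k (b 2) 0 * k (b 0) 1 * k (b 1) 2 - k (b 2) 0 * k (b 1) 1 * k (b 0) 2 := by
  unfold dt
  rw [← LinearMap.det_toMatrix (EuclideanSpace.basisFun (Fin 3) ℝ).toBasis, Matrix.det_fin_three]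
  simp [LinearMap.toMatrix_apply, b]

/-- A rotation which fixes the third basis vector. -/
theorem rot_form (k : LI) (h2 : k (b 2) = b 2) (hd : dt k = 1) (v : E) :
    k v = !₂[k (b 0) 0 * v 0 - k (b 0) 1 * v 1, k (b 0) 1 * v 0 + k (b 0) 0 * v 1, v 2] := by
  have e00 : inner ℝ (k (b 0)) (k (b 0)) = (1 : ℝ) := by
    rw [LinearIsometryEquiv.inner_map_map, inner_E]; simp [b_apply]
  have e01 : inner ℝ (k (b 0)) (k (b 1)) = (0 : ℝ) := by
    rw [LinearIsometryEquiv.inner_map_map, inner_E]; simp [b_apply]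
  have e02 : inner ℝ (k (b 0)) (k (b 2)) = (0 : ℝ) := by
    rw [LinearIsometryEquiv.inner_map_map, inner_E]; simp [b_apply]
  have e12 : inner ℝ (k (b 1)) (k (b 2)) = (0 : ℝ) := by
    rw [LinearIsometryEquiv.inner_map_map, inner_E]; simp [b_apply]
  have hdet := dt_eq k
  rw [hd, h2] at hdet
  rw [h2, inner_E] at e02 e12
  rw [inner_E] at e00 e01
  have b20 : b 2 0 = 0 := by simp [b_apply]
  have b21 : b 2 1 = 0 := by simp [b_apply]
  have b22 : b 2 2 = 1 := by simp [b_apply]
  simp only [b20, b21, b22, mul_zero, zero_mul, zero_add, add_zero, mul_one, sub_zero]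
    at e02 e12 hdet
  rw [e02, e12] at e01
  rw [e02] at e00
  set a := k (b 0) 0 with ha
  set s := k (b 0) 1 with hs
  set c := k (b 1) 0 with hc
  set d := k (b 1) 1 with hdd
  have h10 : c = -s := by
    have h : c * (a * a + s * s) = -s := by
      have : c * (a * a + s * s) = a * (a * c + s * d) - s * (a * d - c * s) := by ring
      rw [this]
      have h5 : a * c + s * d = 0 := by linarith
      have h6 : a * d - c * s = 1 := by linarith
      rw [h5, h6]; ring
    have h7 : a * a + s * s = 1 := by linarith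
    rwa [h7, mul_one] at h
  have h11 : d = a := by
    have h : d * (a * a + s * s) = a := by
      have : d * (a * a + s * s) = s * (a * c + s * d) + a * (a * d - c * s) := by ring
      rw [this]
      have h5 : a * c + s * d = 0 := by linarith
      have h6 : a * d - c * s = 1 := by linarith
      rw [h5, h6]; ring
    have h7 : a * a + s * s = 1 := by linarith
    rwa [h7, mul_one] at h
  have hv : k v = v 0 • k (b 0) + v 1 • k (b 1) + v 2 • b 2 := by
    conv_lhs => rw [sum_b v]
    rw [map_add, map_add, map_smul, map_smul, map_smul, h2]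
  rw [hv]
  ext i
  fin_cases i
  · simp only [Fin.zero_eta, PiLp.add_apply, PiLp.smul_apply, smul_eq_mul, b_apply]
    simp only [← ha, ← hs, ← hc, ← hdd]
    rw [h10]
    simp
    ring
  · simp only [Fin.mk_one, PiLp.add_apply, PiLp.smul_apply, smul_eq_mul, b_apply]
    simp only [← ha, ← hs, ← hc, ← hdd]
    rw [h11]
    simp
    ring
  · simp only [Fin.reduceFinMk, PiLp.add_apply, PiLp.smul_apply, smul_eq_mul, b_apply]
    rw [e02, e12]
    simp

end CYC

open CYC

theorem rd_cyc : S_CYC := by
  intro C p hC hp hdet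
  have he2 : (e2 : E) = b 2 := rfl
  have hn : ‖(e2 : E)‖ = ‖p‖ := by rw [hp]; simp [e2]
  obtain ⟨β, hβ⟩ : ∃ β : LI, β e2 = p :=
    ⟨Submodule.reflection (Submodule.span ℝ {(e2 : E) - p})ᗮ, Submodule.reflection_sub hn⟩
  refine ⟨β, hβ, ?_⟩
  set k : C → LI := fun g => β⁻¹ * (g : LI) * β with hk
  have hk2 : ∀ g : C, k g (b 2) = b 2 := fun g => by
    show β.symm ((g : LI) (β (b 2))) = b 2
    rw [← he2, hβ, (hdet g g.2).2, ← hβ, LinearIsometryEquiv.symm_apply_apply]
  have hkd : ∀ g : C, dt (k g) = 1 := fun g => by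
    rw [hk, dt_conj]; exact (hdet g g.2).1
  have hform := fun g : C => rot_form (k g) (hk2 g) (hkd g)
  have hkmul : ∀ g h : C, k (g * h) = k g * k h := fun g h => by
    simp only [hk, Subgroup.coe_mul]; group
  set χ : C → ℂ := fun g => ⟨k g (b 0) 0, k g (b 0) 1⟩ with hχ
  have hχmul : ∀ g h : C, χ (g * h) = χ g * χ h := fun g h => by
    have h1 : k (g * h) (b 0) = k g (k h (b 0)) := by rw [hkmul]; rfl
    apply Complex.ext
    · simp only [hχ, Complex.mul_re]
      rw [h1, hform g (k h (b 0))]
      simp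
    · simp only [hχ, Complex.mul_im]
      rw [h1, hform g (k h (b 0))]
      simp
      ring
  have hχone : χ 1 = 1 := by
    have h1 : k 1 = 1 := by simp [hk]
    apply Complex.ext
    · simp [hχ, h1, b_apply]
    · simp [hχ, h1, b_apply]
  have hχinj : Function.Injective χ := fun g h hgh => by
    have h0 : k g (b 0) 0 = k h (b 0) 0 := congrArg Complex.re hgh
    have h1 : k g (b 0) 1 = k h (b 0) 1 := congrArg Complex.im hgh
    have h2 : k g = k h := by
      apply LinearIsometryEquiv.ext
      intro v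
      rw [hform g v, hform h v, h0, h1]
    have h3 : (g : LI) = (h : LI) := by
      have h4 : β * k g * β⁻¹ = β * k h * β⁻¹ := by rw [h2]
      simpa [hk, mul_assoc] using h4
    exact Subtype.ext h3
  set m : ℕ := Nat.card C with hm
  have hm0 : m ≠ 0 := Nat.card_pos.ne'
  have hχpow : ∀ (g : C) (n : ℕ), χ (g ^ n) = χ g ^ n := fun g n => by
    induction n with
    | zero => simp [hχone]
    | succ n ih => rw [pow_succ, pow_succ, hχmul, ih]
  have hχm : ∀ g : C, χ g ^ m = 1 := fun g => by
    rw [← hχpow, hm, pow_card_eq_one', hχone]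
  have hprim := Complex.isPrimitiveRoot_exp m hm0
  have : Fintype C := Fintype.ofFinite C
  classical
  have hsub : Finset.univ.image χ ⊆ Polynomial.nthRootsFinset m (1 : ℂ) := by
    intro z hz
    obtain ⟨g, _, rfl⟩ := Finset.mem_image.mp hz
    rw [Polynomial.mem_nthRootsFinset (Nat.pos_of_ne_zero hm0)]
    exact hχm g
  have heq : Finset.univ.image χ = Polynomial.nthRootsFinset m (1 : ℂ) := by
    refine Finset.eq_of_subset_of_card_le hsub ?_
    rw [hprim.card_nthRootsFinset, Finset.card_image_of_injective _ hχinj, Finset.card_univ, hm,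
      Nat.card_eq_fintype_card]
  have hmem : Complex.exp (2 * Real.pi * Complex.I / m) ∈ Finset.univ.image χ := by
    rw [heq, Polynomial.mem_nthRootsFinset (Nat.pos_of_ne_zero hm0)]
    exact hprim.pow_eq_one
  obtain ⟨g, _, hg⟩ := Finset.mem_image.mp hmem
  have hexp : Complex.exp (2 * Real.pi * Complex.I / m) =
      Complex.exp (((2 * Real.pi / m : ℝ) : ℂ) * Complex.I) := by
    congr 1; push_cast; ring
  rw [hexp] at hg
  have hre : k g (b 0) 0 = Real.cos (2 * Real.pi / m) := by
    have := congrArg Complex.re hg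
    rwa [Complex.exp_ofReal_mul_I_re] at this
  have him : k g (b 0) 1 = Real.sin (2 * Real.pi / m) := by
    have := congrArg Complex.im hg
    rwa [Complex.exp_ofReal_mul_I_im] at this
  refine ⟨g, g.2, fun v => ?_⟩
  have h1 := hform g v
  rw [hre, him] at h1
  have h2 : β (k g v) = (g : LI) (β v) := by
    show β (β.symm ((g : LI) (β v))) = (g : LI) (β v)
    rw [LinearIsometryEquiv.apply_symm_apply]
  rw [← h2, h1]
  rfl

end Pool.Agent.H236
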