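import Pool.Agent.H676.SC.Stm

set_option autoImplicit false

/-!
# Project SC (helper676): counting permutations with the bijective game
-/

namespace Pool.Agent.H236.SCCNT

open Finset Pool.Agent.W893.PR Pool.Agent.H676.SC

/-- splitting a set of permutations according to the value of a function -/
theorem card_fib {V : Type} [Fintype V] [DecidableEq V] (φ : Equiv.Perm V → Prop)
    (g : Equiv.Perm V → V) :
    Nat.card {p : Equiv.Perm V // φ p} = ∑ x : V, Nat.card {p : Equiv.Perm V // φ p ∧ g p = x} := by
  classical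
  rw [Nat.card_eq_fintype_card, Fintype.card_subtype,
    Finset.card_eq_sum_card_fiberwise (f := g) (t := (univ : Finset V)) (fun _ _ => by simp)]
  apply Finset.sum_congr rfl
  intro x _
  rw [Nat.card_eq_fintype_card, Fintype.card_subtype, Finset.filter_filter]

theorem card_congr {V : Type} (φ ψ : Equiv.Perm V → Prop) (h : ∀ p, φ p ↔ ψ p) :
    Nat.card {p : Equiv.Perm V // φ p} = Nat.card {p : Equiv.Perm V // ψ p} :=
  Nat.card_congr (Equiv.subtypeEquivRight h)

theorem card_empty {V : Type} (φ : Equiv.Perm V → Prop) (h : ∀ p, ¬ φ p) :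
    Nat.card {p : Equiv.Perm V // φ p} = 0 := by
  have : IsEmpty {p : Equiv.Perm V // φ p} := ⟨fun p => h p.1 p.2⟩
  exact Nat.card_of_isEmpty

theorem gr_congr {V : Type} (D : Finset V) (p q s t : V → V) (h1 : ∀ x ∈ D, p x = s x)
    (h2 : ∀ x ∈ D, q x = t x) : gr D p q = gr D s t := by
  unfold gr
  apply Set.image_congr
  intro x hx
  rw [h1 x hx, h2 x hx]

/-- the agreement with a changed permutation -/
theorem agree {V : Type} [DecidableEq V] (D : Finset V) (d x : V) (hd : d ∉ D) (s : Equiv.Perm V)
    (hx : ∀ y ∈ D, s y ≠ x) :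
    ((Equiv.swap (s d) x * s) d = x) ∧ ∀ y ∈ D, (Equiv.swap (s d) x * s) y = s y := by
  constructor
  · rw [Equiv.Perm.mul_apply, Equiv.swap_apply_left]
  · intro y hy
    rw [Equiv.Perm.mul_apply]
    apply Equiv.swap_apply_of_ne_of_ne
    · intro h
      have := s.injective h
      rw [this] at hy
      exact hd hy
    · exact hx y hy

theorem agree_iff {V : Type} [DecidableEq V] (D : Finset V) (d x : V) (hd : d ∉ D)
    (s : Equiv.Perm V) (hx : ∀ y ∈ D, s y ≠ x) (p : Equiv.Perm V) :
    (∀ y ∈ insert d D, p y = (Equiv.swap (s d) x * s) y) ↔ (∀ y ∈ D, p y = s y) ∧ p d = x := by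
  obtain ⟨h1, h2⟩ := agree D d x hd s hx
  constructor
  · intro h
    refine ⟨fun y hy => ?_, ?_⟩
    · rw [h y (Finset.mem_insert_of_mem hy), h2 y hy]
    · rw [h d (Finset.mem_insert_self _ _), h1]
  · rintro ⟨h3, h4⟩ y hy
    rcases Finset.mem_insert.mp hy with h5 | h5
    · rw [h5, h1, h4]
    · rw [h2 y h5, h3 y h5]

theorem main {V : Type} [Fintype V] [DecidableEq V] (A B : SimpleGraph V) (K : ℕ)
    (R : Set (V × V) → Prop) (hR : BF K A B R) (D' : Finset V) (hK : D'.card ≤ K)
    (P Q : Equiv.Perm V → Prop) (hPQ : ∀ p q : Equiv.Perm V, R (gr D' p q) → (P p ↔ Q q)) :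
    ∀ (n : ℕ) (D : Finset V), D ⊆ D' → (D' \ D).card = n → ∀ s t : Equiv.Perm V, R (gr D s t) →
    Nat.card {p : Equiv.Perm V // (∀ x ∈ D, p x = s x) ∧ P p} =
      Nat.card {q : Equiv.Perm V // (∀ x ∈ D, q x = t x) ∧ Q q} := by
  intro n
  induction n with
  | zero =>
    intro D hD hn s t hst
    have hDD : D = D' := by
      apply Finset.Subset.antisymm hD
      rw [← Finset.sdiff_eq_empty_iff_subset]
      exact Finset.card_eq_zero.mp hn
    subst hDD
    apply Nat.card_congr
    refine Equiv.subtypeEquiv (Equiv.mulLeft (t * s⁻¹)) (fun p => ?_)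
    have e1 : (∀ x ∈ D, p x = s x) ↔ (∀ x ∈ D, (Equiv.mulLeft (t * s⁻¹) p) x = t x) := by
      apply forall_congr'
      intro x
      apply imp_congr_right
      intro _
      rw [Equiv.coe_mulLeft, Equiv.Perm.mul_apply, Equiv.Perm.mul_apply, t.injective.eq_iff,
        Equiv.Perm.inv_eq_iff_eq]
    constructor
    · rintro ⟨h1, h2⟩
      have h3 := e1.mp h1
      refine ⟨h3, ?_⟩
      rw [← hPQ p]
      · exact h2
      · rw [gr_congr D _ _ s t h1 h3]
        exact hst
    · rintro ⟨h3, h2⟩
      have h1 := e1.mpr h3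
      refine ⟨h1, ?_⟩
      rw [hPQ p]
      · exact h2
      · rw [gr_congr D _ _ s t h1 h3]
        exact hst
  | succ n ih =>
    intro D hD hn s t hst
    obtain ⟨d, hd⟩ : ∃ d, d ∈ D' \ D := by
      rw [← Finset.Nonempty, ← Finset.card_pos, hn]
      omega
    rw [Finset.mem_sdiff] at hd
    obtain ⟨hdD', hdD⟩ := hd
    have hins : insert d D ⊆ D' := Finset.insert_subset hdD' hD
    have hcard : (D' \ insert d D).card = n := by
      have h1 : (D' \ D).card = D'.card - D.card := Finset.card_sdiff_of_subset hD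
      have h2 : (D' \ insert d D).card = D'.card - (insert d D).card :=
        Finset.card_sdiff_of_subset hins
      rw [Finset.card_insert_of_notMem hdD] at h2
      omega
    have hlt : (gr D s t).ncard < K := by
      have h1 : (gr D s t).ncard ≤ (D : Set V).ncard := by
        unfold gr
        exact Set.ncard_image_le D.finite_toSet
      rw [Set.ncard_coe_finset] at h1
      have h2 : (insert d D).card ≤ D'.card := Finset.card_le_card hins
      rw [Finset.card_insert_of_notMem hdD] at h2
      omega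
    obtain ⟨hR0, hR1, hR2, hR3⟩ := hR
    obtain ⟨f, hf⟩ := hR3 _ hst hlt
    rw [card_fib _ (fun p => p d), card_fib (fun q : Equiv.Perm V => (∀ x ∈ D, q x = t x) ∧ Q q)
      (fun q => f.symm (q d))]
    apply Finset.sum_congr rfl
    intro x _
    have hiff : ∀ y ∈ D, (x = s y ↔ f x = t y) := by
      intro y hy
      exact (hR2 _ (hf x) (x, f x) (Set.mem_insert _ _) (s y, t y)
        (Set.mem_insert_of_mem _ ⟨y, hy, rfl⟩)).1
    by_cases hx : ∃ y ∈ D, s y = x
    · obtain ⟨y, hy, hyx⟩ := hx
      rw [card_empty, card_empty]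
      · rintro q ⟨⟨h1, _⟩, h2⟩
        rw [Equiv.symm_apply_eq, (hiff y hy).mp hyx.symm, ← h1 y hy] at h2
        have := q.injective h2
        rw [this] at hdD
        exact hdD hy
      · rintro p ⟨⟨h1, _⟩, h2⟩
        have h2' : p d = x := h2
        rw [← hyx, ← h1 y hy] at h2'
        have := p.injective h2'
        rw [this] at hdD
        exact hdD hy
    · push Not at hx
      have hx' : ∀ y ∈ D, t y ≠ f x := by
        intro y hy h
        exact hx y hy ((hiff y hy).mpr h.symm).symm
      obtain ⟨a1, a2⟩ := agree D d x hdD s hx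
      obtain ⟨b1, b2⟩ := agree D d (f x) hdD t hx'
      have hgr : gr (insert d D) (Equiv.swap (s d) x * s : Equiv.Perm V)
          (Equiv.swap (t d) (f x) * t : Equiv.Perm V) = insert (x, f x) (gr D s t) := by
        have h1 : gr D (Equiv.swap (s d) x * s : Equiv.Perm V)
            (Equiv.swap (t d) (f x) * t : Equiv.Perm V) = gr D s t := gr_congr D _ _ _ _ a2 b2
        rw [← h1]
        unfold gr
        rw [Finset.coe_insert, Set.image_insert_eq, a1, b1]
      have h := ih (insert d D) hins hcard (Equiv.swap (s d) x * s) (Equiv.swap (t d) (f x) * t)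
        (by rw [hgr]; exact hf x)
      rw [card_congr _ (fun p : Equiv.Perm V =>
        (∀ y ∈ insert d D, p y = (Equiv.swap (s d) x * s : Equiv.Perm V) y) ∧ P p), h]
      · apply card_congr
        intro q
        rw [agree_iff D d (f x) hdD t hx', Equiv.symm_apply_eq]
        tauto
      · intro p
        rw [agree_iff D d x hdD s hx]
        tauto

theorem t_CNT : Pool.Agent.H676.SC.S_CNT := by
  intro V _ _ A B K R hR D D' hD hK s t hst P Q hPQ
  exact main A B K R hR D' hK P Q hPQ _ D hD rfl s t hst

end Pool.Agent.H236.SCCNT
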